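import Pool.Agent.H9.CA.All

/-!
# MP_ceca85_lc: an iterated `C(aa)` sequence of length `Ord`

The definitions used by the statement are in `Pool/Agent/H9/CA/Stmt.lean` (formulas of stationary
logic, satisfaction in a class, the hierarchy `L'_α`, the class `C(aa)` and the iterated sequence),
`Pool/Agent/H45/SF/Stmt.lean` (`SF.V`, `SF.ZFC`, `SF.Ctbl`), `Pool/Agent/H9/SF/Bas.lean` (`nS`) and
`Pool/Agent/H7/SF/Lists.lean` (`lc`, the code of a finite sequence).
-/

open Ordinal Order

/-- There is a countable transitive model `W` of ZFC whose iterated `C(aa)` sequence, as computed in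
`W`, is strictly decreasing at every ordinal of `W`; all its members are models of ZFC. -/
theorem Pool.Agent.Results.MP_ceca85_lc.ClassLengthCaa.result :
    ∃ W : SF.V, (W : Set SF.V).Countable ∧ SF.ZFC (· ∈ W) ∧
      ∀ α : Ordinal.{0}, α.toZFSet ∈ W → SF.ZFC (CAA.It (· ∈ W) α) ∧
        (∀ x, CAA.It (· ∈ W) (succ α) x → CAA.It (· ∈ W) α x) ∧
        ∃ x, CAA.It (· ∈ W) α x ∧ ¬ CAA.It (· ∈ W) (succ α) x :=
  CAA.All.aZB
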